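import Pool.Agent.H7.HZ.Stmts

/-!
# Row COR of the board `hz`: the core of a block
-/

set_option autoImplicit false

open Finset

namespace Pool.HZ7

open Pool.Agent.H23.KT Pool.Agent.H46.KW Pool.KQ Pool.GT7 Pool.GU7

private theorem cor_mem_non {V : Type} {G : SimpleGraph V} {X : Finset V} {u y : V} :
    y ∈ non G X u ↔ y ∈ X ∧ ¬ G.Adj u y := by
  classical
  unfold non
  rw [mem_filter]

private theorem cor_non_mono {V : Type} {G : SimpleGraph V} {X Y : Finset V} (h : X ⊆ Y) (u : V) :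
    (non G X u).card ≤ (non G Y u).card := by
  apply card_le_card
  intro y hy
  rw [cor_mem_non] at hy ⊢
  exact ⟨h hy.1, hy.2⟩

private theorem cor_non_split {V : Type} [DecidableEq V] {G : SimpleGraph V} (X Y : Finset V)
    (u : V) : (non G X u).card ≤ (non G Y u).card + (non G (X \ Y) u).card := by
  refine le_trans (card_le_card ?_) (card_union_le _ _)
  intro y hy
  rw [cor_mem_non] at hy
  rw [mem_union, cor_mem_non, cor_mem_non, mem_sdiff]
  by_cases h : y ∈ Y
  · exact Or.inl ⟨h, hy.2⟩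
  · exact Or.inr ⟨⟨hy.1, h⟩, hy.2⟩

private theorem cor_non_le {V : Type} {G : SimpleGraph V} (X : Finset V) (u : V) :
    (non G X u).card ≤ X.card := by
  apply card_le_card
  intro y hy
  rw [cor_mem_non] at hy
  exact hy.1

private theorem cor_swap {V : Type} [DecidableEq V] {G : SimpleGraph V} (X Y : Finset V) :
    ∑ u ∈ X, (non G Y u).card = ∑ w ∈ Y, (non G X w).card := by
  classical
  have h1 : ∀ X Y : Finset V, ∑ u ∈ X, (non G Y u).card =
      ∑ u ∈ X, ∑ w ∈ Y, if ¬ G.Adj u w then 1 else 0 := by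
    intro X Y
    apply sum_congr rfl
    intro u _
    unfold non
    rw [card_filter]
  rw [h1, h1, sum_comm]
  apply sum_congr rfl
  intro w _
  apply sum_congr rfl
  intro u _
  simp only [G.adj_comm]

private theorem cor_e1_pos (p : ℕ) : 0 < e1 p := by
  unfold e1
  positivity

private theorem cor_g_small (p : ℕ) (hp : 3 ≤ p) : ((p : ℝ) + 5) * (((p : ℝ) + 5) * e1 p) ≤ 1 / 4 := by
  have h1 : (3 : ℝ) ≤ p := by exact_mod_cast hp
  unfold e1
  have h2 : (0 : ℝ) < 16 * ((p : ℝ) + 3) ^ 3 := by positivity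
  rw [mul_one_div, ← mul_div_assoc, div_le_iff₀ h2]
  nlinarith [mul_nonneg (sub_nonneg.mpr h1) (sub_nonneg.mpr h1),
    mul_nonneg (mul_nonneg (sub_nonneg.mpr h1) (sub_nonneg.mpr h1)) (sub_nonneg.mpr h1)]

theorem cor_thm (h1 : COAStmt) (h2 : COBStmt) (h3 : GREStmt) : CORStmt := by
  intro p r hpr C C₅ hC hC5
  obtain ⟨a1, ha1⟩ := h1 p r hpr C₅ hC5
  obtain ⟨a2, ha2⟩ := h2 p r hpr C₅ hC5
  have hp3 : 3 ≤ p := by
    have := hpr.rb
    have := hpr.rp
    omega
  have hpR : (3 : ℝ) ≤ p := by exact_mod_cast hp3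
  obtain ⟨K, hK⟩ : ∃ K : ℝ, K = ((p : ℝ) + 4) * (((p : ℝ) + 3) * C₅) := ⟨_, rfl⟩
  have hK0 : 0 < K := by
    rw [hK]
    exact mul_pos (by linarith) (mul_pos (by linarith) hC5)
  obtain ⟨g, hg⟩ : ∃ g : ℝ, g = ((p : ℝ) + 5) * e1 p := ⟨_, rfl⟩
  have he1 := cor_e1_pos p
  have hg0 : 0 < g := by
    rw [hg]
    exact mul_pos (by linarith) he1
  have hgs : ((p : ℝ) + 5) * g ≤ 1 / 4 := by
    rw [hg]
    exact cor_g_small p hp3
  obtain ⟨a3, ha3⟩ := exists_nat_ge ((((p : ℝ) + 3) * C₅ + K) / e1 p)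
  refine ⟨1 + ((p : ℝ) + 4) * K + ((p : ℝ) + 4) ^ 2 * (C + 2 * (K * g)), ?_, a1 + a2 + a3 + 1, ?_⟩
  · have q1 : 0 < ((p : ℝ) + 4) * K := mul_pos (by linarith) hK0
    have q2 : 0 < ((p : ℝ) + 4) ^ 2 * (C + 2 * (K * g)) :=
      mul_pos (by positivity) (by have := mul_pos hK0 hg0; linarith)
    linarith
  intro a haa V _ _ G e D P κ A hG he he8 hCl hA
  obtain ⟨hA1, hA2⟩ := ha1 a (by omega) G e C D κ A he8 hA
  have hB := ha2 a (by omega) G e C D P κ A he he8 hCl hA
  have ha0 : (0 : ℝ) < a := by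
    have : 0 < a := by omega
    exact_mod_cast this
  have hae : ((p : ℝ) + 3) * C₅ + K ≤ e1 p * a := by
    rw [div_le_iff₀ he1] at ha3
    have : (a3 : ℝ) ≤ a := by
      have : a3 ≤ a := by omega
      exact_mod_cast this
    nlinarith
  -- the parts
  obtain ⟨Q, hQ⟩ : ∃ Q : Fin (p + 4) → Finset V, ∀ j, Q j = univ.biUnion (fun i => A i j) :=
    ⟨_, fun _ => rfl⟩
  have hmQ : ∀ j y, y ∈ Q j ↔ ∃ i, y ∈ A i j := by
    intro j y
    rw [hQ]
    simp
  have hAQ : ∀ i j, A i j ⊆ Q j := by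
    intro i j y hy
    exact (hmQ j y).2 ⟨i, hy⟩
  -- the difference to `A i j`
  have hdiff : ∀ i j, i ≠ j → ((Q j \ A i j).card : ℝ) ≤ K := by
    intro i j hij
    have q1 : Q j \ A i j ⊆ univ.biUnion (fun k => A k j \ A i j) := by
      intro y hy
      rw [mem_sdiff] at hy
      obtain ⟨k, hk⟩ := (hmQ j y).1 hy.1
      rw [mem_biUnion]
      exact ⟨k, mem_univ _, mem_sdiff.2 ⟨hk, hy.2⟩⟩
    have q2 : ((Q j \ A i j).card : ℝ) ≤ ∑ k : Fin (p + 4), ((A k j \ A i j).card : ℝ) := by
      have := le_trans (card_le_card q1) card_biUnion_le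
      exact_mod_cast this
    have q3 : ∀ k : Fin (p + 4), ((A k j \ A i j).card : ℝ) ≤ ((p : ℝ) + 3) * C₅ := by
      intro k
      have q4 : (0 : ℝ) ≤ ((p : ℝ) + 3) * C₅ := mul_nonneg (by linarith) hC5.le
      by_cases hki : k = i
      · subst hki
        rw [Finset.sdiff_self]
        simpa using q4
      · by_cases hkj : k = j
        · subst hkj
          rw [hA.emp]
          simpa using q4
        · exact hA1 k j i hkj hki (fun h => hij h.symm)
    refine le_trans q2 (le_trans (sum_le_sum (fun k _ => q3 k)) ?_)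
    rw [sum_const, card_univ, Fintype.card_fin, nsmul_eq_mul, hK]
    push_cast
    exact le_rfl
  -- missing pairs at a vertex
  have hmis : ∀ j, ∀ u ∈ Q j, ∀ k, k ≠ j → ((non G (Q k) u).card : ℝ) ≤ g * a := by
    intro j u hu k hkj
    obtain ⟨i, hi⟩ := (hmQ j u).1 hu
    obtain ⟨l, hl⟩ : ∃ l : Fin (p + 4), l ≠ k := ⟨j, fun h => hkj h.symm⟩
    have q1 := hB i j u hi k hkj l hl
    have q2 : ((non G (Q k) u).card : ℝ) ≤ (non G (A l k) u).card + (non G (Q k \ A l k) u).card := by
      exact_mod_cast cor_non_split (Q k) (A l k) u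
    have q3 : ((non G (Q k \ A l k) u).card : ℝ) ≤ (Q k \ A l k).card := by
      exact_mod_cast cor_non_le _ u
    have q4 := hdiff l k hl
    rw [hg]
    nlinarith
  have hdis : ∀ i j, i ≠ j → Disjoint (Q i) (Q j) := by
    intro i j hij
    rw [Finset.disjoint_left]
    intro y hy hy'
    obtain ⟨i', hi'⟩ := (hmQ i y).1 hy
    obtain ⟨j', hj'⟩ := (hmQ j y).1 hy'
    exact Finset.disjoint_left.1 (hA2 i' i j' j hij) hi' hj'
  have hlo : ∀ k, (7 / 8 : ℝ) * a ≤ ((Q k).card : ℝ) := by
    intro k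
    obtain ⟨l, hl⟩ := exists_ne k
    have q1 := hA.lo l k hl
    have q2 : ((A l k).card : ℝ) ≤ (Q k).card := by exact_mod_cast card_le_card (hAQ l k)
    nlinarith
  have hind : ∀ i, ∀ u ∈ Q i, ∀ w ∈ Q i, ¬ G.Adj u w := by
    intro j z hz z' hz' hadj
    classical
    obtain ⟨B, hBd⟩ : ∃ B : Fin (p + 4) → Finset V,
        ∀ k, B k = (Q k).filter (fun y => G.Adj z y ∧ G.Adj z' y) := ⟨_, fun _ => rfl⟩
    have hmB : ∀ k y, y ∈ B k ↔ y ∈ Q k ∧ G.Adj z y ∧ G.Adj z' y := by
      intro k y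
      rw [hBd, mem_filter]
    have hBQ : ∀ k, B k ⊆ Q k := fun k y hy => ((hmB k y).1 hy).1
    have hJc : (univ.erase j : Finset (Fin (p + 4))).card = p + 3 := by
      rw [card_erase_of_mem (mem_univ _), card_univ, Fintype.card_fin]
      rfl
    have hJne : (univ.erase j : Finset (Fin (p + 4))).Nonempty := by
      rw [← card_pos, hJc]
      omega
    obtain ⟨y, hy1, hy2⟩ := h3 G (p + 4) B (univ.erase j) (g * a) hJne (by positivity) (by
      intro j' hj' u hu k hk hkj
      refine le_trans ?_ (hmis j' u (hBQ j' hu) k hkj)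
      exact_mod_cast cor_non_mono (hBQ k) u) (by
      intro k hk
      have hkj : k ≠ j := (mem_erase.1 hk).1
      rw [hJc]
      have q1 : Q k ⊆ B k ∪ (non G (Q k) z ∪ non G (Q k) z') := by
        intro y hy
        rw [mem_union, mem_union, cor_mem_non, cor_mem_non, hmB]
        by_cases c1 : G.Adj z y
        · by_cases c2 : G.Adj z' y
          · exact Or.inl ⟨hy, c1, c2⟩
          · exact Or.inr (Or.inr ⟨hy, c2⟩)
        · exact Or.inr (Or.inl ⟨hy, c1⟩)
      have q2 : (Q k).card ≤ (B k).card + ((non G (Q k) z).card + (non G (Q k) z').card) :=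
        le_trans (card_le_card q1) (le_trans (card_union_le _ _)
          (Nat.add_le_add_left (card_union_le _ _) _))
      have q3 : ((Q k).card : ℝ) ≤ (B k).card + ((non G (Q k) z).card + (non G (Q k) z').card) := by
        exact_mod_cast q2
      have q4 := hmis j z hz k hkj
      have q5 := hmis j z' hz' k hkj
      have q6 := hlo k
      have q7 : ((p : ℝ) + 5) * (g * a) ≤ 1 / 4 * a := by
        rw [← mul_assoc]
        exact mul_le_mul_of_nonneg_right hgs ha0.le
      push_cast
      nlinarith)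
    have hyadj : ∀ k ∈ (univ.erase j : Finset (Fin (p + 4))), G.Adj z (y k) ∧ G.Adj z' (y k) := by
      intro k hk
      exact ((hmB k (y k)).1 (hy1 k hk)).2
    have hinj : Set.InjOn y ((univ.erase j : Finset (Fin (p + 4))) : Set (Fin (p + 4))) := by
      intro k hk k' hk' hkk
      by_contra hne
      have := hy2 k (mem_coe.1 hk) k' (mem_coe.1 hk') hne
      rw [hkk] at this
      exact G.irrefl this
    have hz'ni : z' ∉ (univ.erase j).image y := by
      intro hmem
      obtain ⟨k, hk, hky⟩ := mem_image.1 hmem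
      have := (hyadj k hk).2
      rw [hky] at this
      exact G.irrefl this
    have hzni : z ∉ insert z' ((univ.erase j).image y) := by
      intro hmem
      rcases mem_insert.1 hmem with h | h
      · rw [h] at hadj
        exact G.irrefl hadj
      · obtain ⟨k, hk, hky⟩ := mem_image.1 h
        have := (hyadj k hk).1
        rw [hky] at this
        exact G.irrefl this
    have hcl : G.IsClique ((insert z (insert z' ((univ.erase j).image y)) : Finset V) : Set V) := by
      intro u hu w hw huw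
      rw [mem_coe, mem_insert, mem_insert, mem_image] at hu hw
      rcases hu with rfl | rfl | ⟨k, hk, rfl⟩
      · rcases hw with rfl | rfl | ⟨k', hk', rfl⟩
        · exact absurd rfl huw
        · exact hadj
        · exact (hyadj k' hk').1
      · rcases hw with rfl | rfl | ⟨k', hk', rfl⟩
        · exact hadj.symm
        · exact absurd rfl huw
        · exact (hyadj k' hk').2
      · rcases hw with rfl | rfl | ⟨k', hk', rfl⟩
        · exact (hyadj k hk).1.symm
        · exact (hyadj k hk).2.symm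
        · apply hy2 k hk k' hk'
          intro h
          exact huw (by rw [h])
    have hcard := hG.cb _ (subset_univ _) hcl
    rw [card_insert_of_notMem hzni, card_insert_of_notMem hz'ni, card_image_of_injOn hinj, hJc]
      at hcard
    omega
  -- sizes
  have hsum : ∀ i, ∑ j, ((A i j).card : ℝ) = ((p : ℝ) + 3) * a + r := by
    intro i
    have q1 : nb G univ (κ i) = univ.biUnion (fun j => A i j) := by
      ext y
      rw [mem_nb, mem_biUnion]
      constructor
      · rintro ⟨-, h⟩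
        obtain ⟨j, hj⟩ := (hA.nbr i y).1 h
        exact ⟨j, mem_univ _, hj⟩
      · rintro ⟨j, -, hj⟩
        exact ⟨mem_univ _, (hA.nbr i y).2 ⟨j, hj⟩⟩
    have q2 := hA.deg i
    rw [q1, card_biUnion (fun j _ k _ hjk => hA.dis i j k hjk)] at q2
    have q3 : ((∑ j, (A i j).card : ℕ) : ℝ) = (((p + 3) * a + r : ℕ) : ℝ) := by rw [q2]
    push_cast at q3
    exact q3
  have hrow1 : ∀ i, ∑ j, ((A i j).card : ℝ) ≤ ∑ j, ((Q j).card : ℝ) - (Q i).card := by
    intro i
    have q1 := sum_erase_add (univ : Finset (Fin (p + 4))) (fun j => ((Q j).card : ℝ)) (mem_univ i)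
    have q2 := sum_erase_add (univ : Finset (Fin (p + 4))) (fun j => ((A i j).card : ℝ)) (mem_univ i)
    have q3 : ((A i i).card : ℝ) = 0 := by
      rw [hA.emp]
      simp
    have q4 : ∑ j ∈ univ.erase i, ((A i j).card : ℝ) ≤ ∑ j ∈ univ.erase i, ((Q j).card : ℝ) :=
      sum_le_sum (fun j _ => by exact_mod_cast card_le_card (hAQ i j))
    linarith
  have hrow2 : ∀ i, ∑ j, ((Q j).card : ℝ) - (Q i).card ≤
      ∑ j, ((A i j).card : ℝ) + ((p : ℝ) + 3) * K := by
    intro i
    have q1 := sum_erase_add (univ : Finset (Fin (p + 4))) (fun j => ((Q j).card : ℝ)) (mem_univ i)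
    have q2 := sum_erase_add (univ : Finset (Fin (p + 4))) (fun j => ((A i j).card : ℝ)) (mem_univ i)
    have q3 : ((A i i).card : ℝ) = 0 := by
      rw [hA.emp]
      simp
    have q4 : ∑ j ∈ univ.erase i, ((Q j).card : ℝ) ≤
        ∑ j ∈ univ.erase i, (((A i j).card : ℝ) + K) := by
      apply sum_le_sum
      intro j hj
      have q5 := hdiff i j (fun h => (mem_erase.1 hj).1 h.symm)
      have q6 : (Q j).card ≤ (A i j).card + (Q j \ A i j).card := by
        rw [← card_union_of_disjoint disjoint_sdiff]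
        apply card_le_card
        intro y hy
        rw [mem_union, mem_sdiff]
        by_cases c : y ∈ A i j
        · exact Or.inl c
        · exact Or.inr ⟨hy, c⟩
      have q7 : ((Q j).card : ℝ) ≤ (A i j).card + (Q j \ A i j).card := by exact_mod_cast q6
      linarith
    rw [sum_add_distrib, sum_const, card_erase_of_mem (mem_univ _), card_univ, Fintype.card_fin,
      nsmul_eq_mul] at q4
    have q8 : ((p + 4 - 1 : ℕ) : ℝ) = (p : ℝ) + 3 := by
      rw [show p + 4 - 1 = p + 3 by omega]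
      push_cast
      ring
    rw [q8] at q4
    linarith
  obtain ⟨T, hT⟩ : ∃ T : ℝ, T = ∑ j, ((Q j).card : ℝ) := ⟨_, rfl⟩
  have hT1 : ((p : ℝ) + 4) * (((p : ℝ) + 3) * a + r) ≤ ((p : ℝ) + 3) * T := by
    have q1 : ∑ i : Fin (p + 4), (((p : ℝ) + 3) * a + r) ≤ ∑ i : Fin (p + 4), (T - (Q i).card) :=
      sum_le_sum (fun i _ => by
        have := hrow1 i
        rw [hsum i, ← hT] at this
        exact this)
    rw [sum_const, card_univ, Fintype.card_fin, nsmul_eq_mul, sum_sub_distrib, sum_const, card_univ,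
      Fintype.card_fin, nsmul_eq_mul, ← hT] at q1
    push_cast at q1
    linarith
  have hT2 : ((p : ℝ) + 3) * T ≤ ((p : ℝ) + 4) * (((p : ℝ) + 3) * a + r + ((p : ℝ) + 3) * K) := by
    have q1 : ∑ i : Fin (p + 4), (T - (Q i).card) ≤
        ∑ i : Fin (p + 4), (((p : ℝ) + 3) * a + r + ((p : ℝ) + 3) * K) :=
      sum_le_sum (fun i _ => by
        have := hrow2 i
        rw [hsum i, ← hT] at this
        exact this)
    rw [sum_const, card_univ, Fintype.card_fin, nsmul_eq_mul, sum_sub_distrib, sum_const, card_univ,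
      Fintype.card_fin, nsmul_eq_mul, ← hT] at q1
    push_cast at q1
    linarith
  have hrR : (r : ℝ) ≤ p := by exact_mod_cast hpr.rp
  have hr0 : (0 : ℝ) ≤ r := Nat.cast_nonneg r
  have q2pos : 0 ≤ ((p : ℝ) + 4) ^ 2 * (C + 2 * (K * g)) :=
    mul_nonneg (by positivity) (by have := mul_pos hK0 hg0; linarith)
  refine ⟨Q, ⟨hdis, hind⟩, ?_, ?_, ?_, ?_⟩
  · intro j
    have q1 := hrow1 j
    have q2 := hrow2 j
    rw [hsum j, ← hT] at q1 q2
    constructor
    · -- lower bound
      have q3 : ((p : ℝ) + 3) * ((a : ℝ) + ((p : ℝ) + 3) * K - ((p : ℝ) + 3) * K) ≤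
          ((p : ℝ) + 3) * (((Q j).card : ℝ) + ((p : ℝ) + 3) * K) := by
        nlinarith
      have q4 := le_of_mul_le_mul_left q3 (by linarith : (0 : ℝ) < (p : ℝ) + 3)
      nlinarith
    · have q3 : ((p : ℝ) + 3) * ((Q j).card : ℝ) ≤
          ((p : ℝ) + 3) * ((a : ℝ) + 1 + ((p : ℝ) + 4) * K) := by
        nlinarith
      have q4 := le_of_mul_le_mul_left q3 (by linarith : (0 : ℝ) < (p : ℝ) + 3)
      nlinarith
  · intro j u hu k hk
    have := hmis j u hu k hk
    rw [hg] at this
    exact this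
  · -- total
    have hpair : ∀ j k, k ≠ j → ((∑ u ∈ Q j, (non G (Q k) u).card : ℕ) : ℝ) ≤
        (C + 2 * (K * g)) * a := by
      intro j k hkj
      obtain ⟨l, hlj, hlk⟩ : ∃ l : Fin (p + 4), l ≠ j ∧ l ≠ k := by
        have hc : ({j, k} : Finset (Fin (p + 4))).card < (univ : Finset (Fin (p + 4))).card := by
          rw [card_univ, Fintype.card_fin]
          exact lt_of_le_of_lt card_le_two (by omega)
        obtain ⟨l, -, hl⟩ := exists_mem_notMem_of_card_lt_card hc
        rw [mem_insert, mem_singleton, not_or] at hl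
        exact ⟨l, hl.1, hl.2⟩
      -- split `Q j`
      have s1 : ∑ u ∈ Q j, (non G (Q k) u).card =
          ∑ u ∈ Q j \ A l j, (non G (Q k) u).card + ∑ u ∈ A l j, (non G (Q k) u).card :=
        (sum_sdiff (hAQ l j)).symm
      have s2 : ∑ u ∈ A l j, (non G (Q k) u).card ≤
          ∑ u ∈ A l j, (non G (A l k) u).card + ∑ u ∈ A l j, (non G (Q k \ A l k) u).card := by
        rw [← sum_add_distrib]
        exact sum_le_sum (fun u _ => cor_non_split (Q k) (A l k) u)
      have s3 : ∑ u ∈ A l j, (non G (Q k \ A l k) u).card ≤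
          ∑ w ∈ Q k \ A l k, (non G (Q j) w).card := by
        rw [cor_swap]
        exact sum_le_sum (fun w _ => cor_non_mono (hAQ l j) w)
      have s4 : ((∑ w ∈ Q k \ A l k, (non G (Q j) w).card : ℕ) : ℝ) ≤ K * (g * a) := by
        push_cast
        refine le_trans (sum_le_sum (fun w hw => hmis k w (mem_sdiff.1 hw).1 j
          (fun h => hkj h.symm))) ?_
        rw [sum_const, nsmul_eq_mul]
        exact mul_le_mul_of_nonneg_right (hdiff l k hlk) (by positivity)
      have s5 : ((∑ u ∈ Q j \ A l j, (non G (Q k) u).card : ℕ) : ℝ) ≤ K * (g * a) := by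
        push_cast
        refine le_trans (sum_le_sum (fun w hw => hmis j w (mem_sdiff.1 hw).1 k hkj)) ?_
        rw [sum_const, nsmul_eq_mul]
        exact mul_le_mul_of_nonneg_right (hdiff l j hlj) (by positivity)
      have s6 := hA.tot l j k (fun h => hkj h.symm)
      have s7 : ((∑ u ∈ Q j, (non G (Q k) u).card : ℕ) : ℝ) ≤
          ((∑ u ∈ Q j \ A l j, (non G (Q k) u).card : ℕ) : ℝ) +
          (((∑ u ∈ A l j, (non G (A l k) u).card : ℕ) : ℝ) +
          ((∑ w ∈ Q k \ A l k, (non G (Q j) w).card : ℕ) : ℝ)) := by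
        have s8 : ∑ u ∈ Q j, (non G (Q k) u).card ≤
          (∑ u ∈ Q j \ A l j, (non G (Q k) u).card) +
          ((∑ u ∈ A l j, (non G (A l k) u).card) +
          (∑ w ∈ Q k \ A l k, (non G (Q j) w).card)) := by
          rw [s1]
          omega
        exact_mod_cast s8
      nlinarith
    have t1 : (tot G Q : ℝ) ≤ ∑ j : Fin (p + 4), ∑ k : Fin (p + 4), (C + 2 * (K * g)) * (a : ℝ) := by
      unfold tot
      push_cast
      apply sum_le_sum
      intro j _
      refine le_trans (sum_le_sum (fun k hk => ?_)) (sum_le_sum_of_subset_of_nonneg (erase_subset j univ) ?_)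
      · have := hpair j k (mem_erase.1 hk).1
        push_cast at this
        exact this
      · intro _ _ _
        exact mul_nonneg (by have := mul_pos hK0 hg0; linarith) ha0.le
    simp only [sum_const, card_univ, Fintype.card_fin, nsmul_eq_mul] at t1
    push_cast at t1
    have t2 : 0 ≤ (1 + ((p : ℝ) + 4) * K) * a :=
      mul_nonneg (by have := mul_pos (by linarith : (0 : ℝ) < (p : ℝ) + 4) hK0; linarith) ha0.le
    nlinarith
  · intro j
    obtain ⟨i, hi⟩ := exists_ne j
    refine ⟨κ j, hAQ i j (hA.mem i j hi), hA.deg j, ?_⟩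
    intro y hy
    rw [mem_nb] at hy
    obtain ⟨k, hk⟩ := (hA.nbr j y).1 hy.2
    unfold un
    rw [mem_biUnion]
    exact ⟨k, mem_univ _, hAQ j k hk⟩

end Pool.HZ7
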